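import Pool.Agent.H28.MCL.Targets

/-!
# Many bad windows give a slowly varying sign (row BLK of the project MCL)
-/

set_option autoImplicit false

open Finset Filter Topology

namespace Pool.Agent.H75.MCL

open Pool.Agent.H28.MCL
open Pool.Agent.H27.T2 (bi bl good)

/-- the values of the local sign -/
lemma lc_val (f : ℕ → ℝ) (κ : ℝ) (Q c h o m : ℕ) :
    lc f κ Q c h o m = 0 ∨ lc f κ Q c h o m = 1 ∨ lc f κ Q c h o m = -1 := by
  unfold lc
  split_ifs
  · exact Or.inr (Or.inl rfl)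
  · exact Or.inr (Or.inr rfl)
  · exact Or.inl rfl

/-- change points of the local sign -/
lemma lc_change {f : ℕ → ℝ} {κ : ℝ} {Q c h o m : ℕ} (ho : o < h) (hm : 1 ≤ m)
    (hc : lc f κ Q c h o m ≠ lc f κ Q c h o (m + 1)) : m ≡ o [MOD h] := by
  by_contra hne
  apply hc
  have h1 : bi h o m = bi h o (m + 1) := by
    unfold Pool.Agent.H27.T2.bi
    have h2 : m + 1 - 1 + (h - o) = (m - 1 + (h - o)) + 1 := by omega
    rw [h2, Nat.succ_div, if_neg, add_zero]
    intro hd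
    apply hne
    have h3 : m - 1 + (h - o) + 1 = m + (h - o) := by omega
    rw [h3] at hd
    have h4 : m + (h - o) ≡ o + (h - o) [MOD h] := by
      rw [show o + (h - o) = h by omega]
      exact ((Nat.modEq_zero_iff_dvd).2 hd).trans ((Nat.modEq_zero_iff_dvd).2 dvd_rfl).symm
    exact Nat.ModEq.add_right_cancel' _ h4
  have h2 : bl h o m = bl h o (m + 1) := by
    unfold Pool.Agent.H27.T2.bl
    rw [h1]
  unfold lc
  rw [← h1, ← h2]

open Classical in
/-- one class has many bad windows -/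
lemma exists_class (s : Finset ℕ) (P : ℕ → Prop) (g : ℕ → ℝ) (h : ℕ) (hh : 0 < h) (M : ℝ)
    (hM : M < ∑ n ∈ s.filter (fun n => P n), g n) :
    ∃ o, o < h ∧ M < h * ∑ n ∈ s.filter (fun n => P n ∧ n ≡ o [MOD h]), g n := by
  by_contra hno
  push Not at hno
  have hhR : (0 : ℝ) < h := by exact_mod_cast hh
  have h1 : ∑ n ∈ s.filter (fun n => P n), g n =
      ∑ o ∈ range h, ∑ n ∈ s.filter (fun n => P n ∧ n ≡ o [MOD h]), g n := by
    rw [← Finset.sum_fiberwise_of_maps_to (s := s.filter (fun n => P n)) (t := range h)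
      (g := fun n => n % h) (fun n _ => mem_range.2 (Nat.mod_lt n hh))]
    refine Finset.sum_congr rfl fun o ho => ?_
    rw [Finset.filter_filter]
    refine Finset.sum_congr ?_ fun _ _ => rfl
    refine Finset.filter_congr fun n _ => ?_
    have : o % h = o := Nat.mod_eq_of_lt (mem_range.1 ho)
    unfold Nat.ModEq
    rw [this]
  have h2 : (h : ℝ) * ∑ n ∈ s.filter (fun n => P n), g n ≤ h * M := by
    rw [h1, Finset.mul_sum]
    calc ∑ o ∈ range h, (h : ℝ) * ∑ n ∈ s.filter (fun n => P n ∧ n ≡ o [MOD h]), g n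
        ≤ ∑ o ∈ range h, M := Finset.sum_le_sum fun o ho => hno o (mem_range.1 ho)
      _ = h * M := by rw [Finset.sum_const, card_range, nsmul_eq_mul]
  nlinarith

theorem blk (hA : T_BLA) (hB : T_BLB) (hL : T_LGC) : T_BLK := by
  classical
  intro f κ δ Q c hf hκ hδ hQ
  have hQR : (0 : ℝ) < Q := by exact_mod_cast hQ
  refine ⟨⌈2 * Q / κ⌉₊ + 1, fun h hh => ?_⟩
  have hhpos : 0 < h := by omega
  have hhR : (0 : ℝ) < h := by exact_mod_cast hhpos
  have hh1 : (1 : ℝ) ≤ h := by exact_mod_cast hhpos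
  have hhQ : 2 * Q / κ ≤ (h : ℝ) := by
    have h1 : (⌈2 * Q / κ⌉₊ : ℝ) ≤ h := by
      exact_mod_cast (by omega : ⌈2 * Q / κ⌉₊ ≤ h)
    exact (Nat.le_ceil _).trans h1
  -- the constant
  obtain ⟨B, hB1, hB2, hB3, hB4⟩ : ∃ B : ℝ, 0 ≤ B ∧ 8 * h / δ ≤ B ∧ (h : ℝ) ≤ B ∧
      4 * Q / κ * (κ * h / (2 * Q) + 1 / 2 + h) ≤ B := by
    refine ⟨max (8 * h / δ) (max (h : ℝ) (4 * Q / κ * (κ * h / (2 * Q) + 1 / 2 + h))),
      ?_, le_max_left _ _, ?_, ?_⟩
    · exact le_trans hhR.le (le_trans (le_max_left _ _) (le_max_right _ _))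
    · exact le_trans (le_max_left _ _) (le_max_right _ _)
    · exact le_trans (le_max_right _ _) (le_max_right _ _)
  refine ⟨⌈Real.exp B⌉₊, fun x y hx hxy hbad => ?_⟩
  have hxR : (0 : ℝ) < x := by exact_mod_cast hx
  have hKpos : (0 : ℝ) < Real.exp B := Real.exp_pos B
  have hyx : Real.exp B ≤ (y : ℝ) / x := by
    rw [le_div_iff₀ hxR]
    calc Real.exp B * x ≤ ⌈Real.exp B⌉₊ * x := by
          exact mul_le_mul_of_nonneg_right (Nat.le_ceil _) hxR.le
      _ ≤ y := by exact_mod_cast hxy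
  have hlog : B ≤ Real.log ((y : ℝ) / x) := by
    rw [Real.le_log_iff_exp_le (hKpos.trans_le hyx)]
    exact hyx
  have hxley : x ≤ y := by
    have h1 : (1 : ℝ) ≤ (y : ℝ) / x := (Real.one_le_exp hB1).trans hyx
    rw [le_div_iff₀ hxR, one_mul] at h1
    exact_mod_cast h1
  set ℓ := Real.log ((y : ℝ) / x) with hℓ
  obtain ⟨o, ho, hmass⟩ := exists_class (Icc x y) (fun n => Bad f κ Q c h n)
    (fun n => (1 : ℝ) / n) h hhpos (δ * ℓ) hbad
  refine ⟨lc f κ Q c h o, lc_val f κ Q c h o, ?_, ?_, ?_⟩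
  · -- changes
    have h1 : ∑ m ∈ (Icc x y).filter (fun m => lc f κ Q c h o m ≠ lc f κ Q c h o (m + 1)),
        (1 : ℝ) / m ≤ ∑ n ∈ (Icc x y).filter (fun n => n ≡ o [MOD h]), (1 : ℝ) / n := by
      refine Finset.sum_le_sum_of_subset_of_nonneg ?_ fun _ _ _ => by positivity
      intro m hm
      rw [mem_filter, mem_Icc] at hm
      rw [mem_filter, mem_Icc]
      exact ⟨hm.1, lc_change ho (by omega) hm.2⟩
    have h2 := hL h o x y hhpos hx hxley
    refine (h1.trans h2).trans ?_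
    rw [← hℓ]
    have h3 : (h : ℝ) ≤ ℓ := hB3.trans hlog
    have h4 : 1 ≤ ℓ / h := by
      rw [le_div_iff₀ hhR]
      linarith
    have h5 : 3 / (h : ℝ) * ℓ = ℓ / h + ℓ / h + ℓ / h := by
      field_simp
      ring
    rw [h5]
    linarith
  · -- the support
    have h1 := hA f κ Q c h o x y hhpos ho hx
    have h2 : 8 * h / δ ≤ ℓ := hB2.trans hlog
    rw [div_le_iff₀ hδ] at h2
    linarith
  · -- the errors
    have h1 := hB f κ Q c h o x y hf hκ hQ hhpos ho hx hxley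
    refine h1.trans ?_
    rw [← hℓ]
    have hℓ0 : 0 ≤ ℓ := hB1.trans hlog
    have h2 : 4 * Q / κ * (κ * h / (2 * Q) + 1 / 2 + h) ≤ ℓ := hB4.trans hlog
    have h3 : κ * h / (2 * Q) + 1 / 2 + h ≤ κ / (4 * Q) * ℓ := by
      have h4 : κ / (4 * Q) * (4 * Q / κ * (κ * h / (2 * Q) + 1 / 2 + h)) =
          κ * h / (2 * Q) + 1 / 2 + h := by
        field_simp
      rw [← h4]
      exact mul_le_mul_of_nonneg_left h2 (by positivity)
    have h5 : 1 / (2 * (h : ℝ)) ≤ κ / (4 * Q) := by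
      rw [div_le_div_iff₀ (by positivity) (by positivity)]
      rw [div_le_iff₀ hκ] at hhQ
      nlinarith
    have h6 : 1 / (2 * (h : ℝ)) * ℓ ≤ κ / (4 * Q) * ℓ := mul_le_mul_of_nonneg_right h5 hℓ0
    have h7 : (κ * h / Q + 1) / 2 * (1 + ℓ / h) + h =
        (κ * h / (2 * Q) + 1 / 2 + h) + κ / (2 * Q) * ℓ + 1 / (2 * (h : ℝ)) * ℓ := by
      field_simp
      ring
    have h8 : κ / Q * ℓ = κ / (4 * Q) * ℓ + κ / (2 * Q) * ℓ + κ / (4 * Q) * ℓ := by
      field_simp
      ring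
    rw [h7, h8]
    linarith

end Pool.Agent.H75.MCL
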