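import Pool.Agent.H28.MCL.Targets

/-!
# The deterministic bound, any number of clusters (row DTB of the project MCL)
-/

set_option autoImplicit false

open Finset Filter Topology

namespace Pool.Agent.H75.MCL

open Pool.Agent.H28.MCL

/-! ### The functions `bc` and `bb` -/

lemma ind_mem (P : ℕ → Prop) (n : ℕ) : 0 ≤ ind P n ∧ ind P n ≤ 1 := by
  unfold ind
  split_ifs
  · exact ⟨zero_le_one, le_rfl⟩
  · exact ⟨le_rfl, zero_le_one⟩

lemma bc_mem {m : ℕ} (W : ℕ) (κ : ℝ) (h : ℕ) (A : Fin m → Finset ℕ) (g : Fin m → ℕ → ℝ)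
    (l : Fin m) (j z : ℕ) : 0 ≤ bc W κ h A g l j z ∧ bc W κ h A g l j z ≤ 1 := by
  unfold bc
  constructor
  · exact mul_nonneg (by positivity) (Finset.sum_nonneg fun a _ => (ind_mem _ _).1)
  · have h1 : ∑ a ∈ A l, ind (Bad (fun y => g l y * g l (y + j * W)) κ W a h) z ≤
        (A l).card := by
      calc ∑ a ∈ A l, ind (Bad (fun y => g l y * g l (y + j * W)) κ W a h) z
          ≤ ∑ a ∈ A l, (1 : ℝ) := Finset.sum_le_sum fun a _ => (ind_mem _ _).2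
        _ = (A l).card := by simp
    rcases Nat.eq_zero_or_pos (A l).card with h0 | h0
    · rw [h0]
      simp
    · have h2 : (0 : ℝ) < (A l).card := by exact_mod_cast h0
      rw [one_div, inv_mul_le_iff₀ h2, mul_one]
      exact h1

lemma bb_two {m : ℕ} (W : ℕ) (κ : ℝ) (h : ℕ) (A : Fin m → Finset ℕ) (g : Fin m → ℕ → ℝ)
    (z : ℕ) : bb 2 W κ h A g z = 1 / (m : ℝ) * ∑ l, bc W κ h A g l 1 z := by
  unfold bb
  have h1 : ∀ l : Fin m, ∑ j ∈ Finset.Ico 1 2, bc W κ h A g l j z = bc W κ h A g l 1 z := by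
    intro l
    have : Finset.Ico 1 2 = {1} := by decide
    rw [this, Finset.sum_singleton]
  simp only [h1]
  have h2 : (m : ℝ) * (((2 : ℕ) : ℝ) - 1) = m := by
    push_cast
    ring
  rw [h2]

lemma bb_nonneg {m : ℕ} (W : ℕ) (κ : ℝ) (h : ℕ) (A : Fin m → Finset ℕ) (g : Fin m → ℕ → ℝ)
    (z : ℕ) : 0 ≤ bb 2 W κ h A g z := by
  rw [bb_two]
  exact mul_nonneg (by positivity) (Finset.sum_nonneg fun l _ => (bc_mem W κ h A g l 1 z).1)

lemma bc_le_bb {m : ℕ} (hm : 1 ≤ m) (W : ℕ) (κ : ℝ) (h : ℕ) (A : Fin m → Finset ℕ)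
    (g : Fin m → ℕ → ℝ) (l : Fin m) (z : ℕ) :
    bc W κ h A g l 1 z ≤ m * bb 2 W κ h A g z := by
  rw [bb_two]
  have hmR : (0 : ℝ) < m := by exact_mod_cast hm
  have h1 : (m : ℝ) * (1 / (m : ℝ) * ∑ l, bc W κ h A g l 1 z) = ∑ l, bc W κ h A g l 1 z := by
    field_simp
  rw [h1]
  exact Finset.single_le_sum (f := fun l => bc W κ h A g l 1 z)
    (fun l _ => (bc_mem W κ h A g l 1 z).1) (mem_univ l)

/-! ### The final inequality -/

lemma final_ineq {m κ z ζ : ℝ} (hm : 0 ≤ m) (hκ : 0 < κ) (hz0 : 0 ≤ z) (hz1 : z ≤ 1)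
    (hz : (8 * m + 3) * z ≤ ζ) :
    (1 + z) * (1 / 4) * (2 * (1 + z) + 2 * ((1 + z) * (1 - κ + 4 * m * z) + κ / 2)) ≤
      1 - κ / 4 + ζ := by
  have hzz : z * z ≤ z := by nlinarith
  have hmz : 0 ≤ m * z := mul_nonneg hm hz0
  have hmzz : m * z * z ≤ m * z := by nlinarith
  have h1 : (1 + z) * (1 - κ + 4 * m * z) ≤ 1 - κ + z + 8 * m * z := by
    nlinarith [mul_nonneg hκ.le hz0]
  have h2 : 2 * (1 + z) + 2 * ((1 + z) * (1 - κ + 4 * m * z) + κ / 2) ≤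
      4 - κ + 4 * z + 16 * m * z := by linarith
  have h3 : (1 + z) * (1 / 4) * (2 * (1 + z) + 2 * ((1 + z) * (1 - κ + 4 * m * z) + κ / 2)) ≤
      (1 + z) * (1 / 4) * (4 - κ + 4 * z + 16 * m * z) :=
    mul_le_mul_of_nonneg_left h2 (by positivity)
  refine h3.trans ?_
  nlinarith [mul_nonneg hκ.le hz0]

/-! ### The bound -/

/-- the sum of the products -/
lemma sum_prod_le (hy : T_YBD) (ha : T_AVG) (hp : T_PRB) (hc : T_CNT) {m : ℕ} {κ θ z : ℝ}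
    (hm : 1 ≤ m) (hκ : 0 < κ) (hκ1 : κ ≤ 1) (hθ : 0 < θ) (hθm : 8 * m * θ ≤ 1) (hz : 0 < z)
    (hmz : (m : ℝ) * z ≤ 1 / 2) {q W h : ℕ} (hq : 0 < q) (hW : 0 < W) (hh : 0 < h)
    (hWh : (W : ℝ) ≤ z / 2 * h) {n₀ : ℕ} {A : Fin m → Finset ℕ}
    {g : Fin m → ℕ → ℝ} (hA : ∀ l, A l ⊆ Finset.range W) (hg : ∀ l y, |g l y| ≤ 1)
    {N H T : ℕ} (hHN : H ≤ N) (hTN : T ≤ N) (hqH : q ≤ H) (hqT : q ≤ T)
    (hqz : (q : ℝ) ≤ z * H) (hT : ((2 * h + 1) * W : ℝ) ≤ z / 2 * T)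
    (hG : Gd (bb 2 W κ h A g) θ N) :
    ∑ n ∈ iv N H q n₀, ∏ l, yy W A g T l 1 n ≤
      ((H : ℝ) / q * ∏ l, ((A l).card * ((T : ℝ) / W))) *
        ((1 + z) * (1 - κ + 4 * m * z) + κ / 2) := by
  have hqR : (0 : ℝ) < q := by exact_mod_cast hq
  have hTpos : 0 < T := by omega
  have hTR : (0 : ℝ) < T := by exact_mod_cast hTpos
  have hmR : (1 : ℝ) ≤ m := by exact_mod_cast hm
  let v : ℕ → Fin m → ℝ := fun n l =>
    1 / (T : ℝ) * ∑ s ∈ Finset.Icc 1 T, bc W κ h A g l 1 (n + s)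
  have hv : ∀ n l, 0 ≤ v n l ∧ v n l ≤ 1 := by
    intro n l
    constructor
    · exact mul_nonneg (by positivity) (Finset.sum_nonneg fun s _ => (bc_mem W κ h A g l 1 _).1)
    · have h1 : ∑ s ∈ Finset.Icc 1 T, bc W κ h A g l 1 (n + s) ≤ T := by
        calc ∑ s ∈ Finset.Icc 1 T, bc W κ h A g l 1 (n + s)
            ≤ ∑ s ∈ Finset.Icc 1 T, (1 : ℝ) :=
              Finset.sum_le_sum fun s _ => (bc_mem W κ h A g l 1 _).2
          _ = T := by simp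
      change 1 / (T : ℝ) * _ ≤ 1
      rw [one_div, inv_mul_le_iff₀ hTR, mul_one]
      exact h1
  set P : ℝ := ∏ l, ((A l).card * ((T : ℝ) / W)) with hP
  have hP0 : 0 ≤ P := Finset.prod_nonneg fun l _ => by positivity
  let l₀ : Fin m := ⟨0, by omega⟩
  have hone : ∀ n, ∏ l, yy W A g T l 1 n ≤ P * (1 - κ + κ * v n l₀ + 4 * m * z) := by
    intro n
    have h1 : ∏ l, yy W A g T l 1 n ≤
        ∏ l, (((A l).card * ((T : ℝ) / W)) * (1 - κ * (1 - v n l) + z)) := by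
      refine Finset.prod_le_prod (fun l _ => ?_) fun l _ => ?_
      · exact abs_nonneg _
      · exact hy m W h T 1 n κ z A g l hA hg hW hh hTpos hκ hκ1 hz hWh hT
    rw [Finset.prod_mul_distrib] at h1
    refine h1.trans (mul_le_mul_of_nonneg_left ?_ hP0)
    exact hp m κ z (v n) l₀ hκ hκ1 hz.le hmz (hv n)
  have havg := ha (bb 2 W κ h A g) θ q n₀ N H T (bb_nonneg W κ h A g) hθ hq hqH hHN hqT hTN hG
  have hv0 : ∑ n ∈ iv N H q n₀, v n l₀ ≤ (H : ℝ) / q / 2 := by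
    have h1 : ∀ n, v n l₀ ≤
        m * (1 / (T : ℝ) * ∑ s ∈ Finset.Icc 1 T, bb 2 W κ h A g (n + s)) := by
      intro n
      calc v n l₀ = 1 / (T : ℝ) * ∑ s ∈ Finset.Icc 1 T, bc W κ h A g l₀ 1 (n + s) := rfl
        _ ≤ 1 / (T : ℝ) * ∑ s ∈ Finset.Icc 1 T, (m : ℝ) * bb 2 W κ h A g (n + s) :=
            mul_le_mul_of_nonneg_left
              (Finset.sum_le_sum fun s _ => bc_le_bb hm W κ h A g l₀ (n + s)) (by positivity)
        _ = m * (1 / (T : ℝ) * ∑ s ∈ Finset.Icc 1 T, bb 2 W κ h A g (n + s)) := by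
            rw [← Finset.mul_sum]
            ring
    calc ∑ n ∈ iv N H q n₀, v n l₀
        ≤ ∑ n ∈ iv N H q n₀, m * (1 / (T : ℝ) *
            ∑ s ∈ Finset.Icc 1 T, bb 2 W κ h A g (n + s)) := Finset.sum_le_sum fun n _ => h1 n
      _ = m * ∑ n ∈ iv N H q n₀, 1 / (T : ℝ) *
            ∑ s ∈ Finset.Icc 1 T, bb 2 W κ h A g (n + s) := by rw [Finset.mul_sum]
      _ ≤ m * (4 * θ * H / q) := mul_le_mul_of_nonneg_left havg (by positivity)
      _ = (8 * m * θ) * ((H : ℝ) / q / 2) := by ring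
      _ ≤ 1 * ((H : ℝ) / q / 2) := mul_le_mul_of_nonneg_right hθm (by positivity)
      _ = (H : ℝ) / q / 2 := one_mul _
  have hcard : ((iv N H q n₀).card : ℝ) ≤ (1 + z) * ((H : ℝ) / q) := by
    have h1 := ((hc q 0 H ∅ hq (Finset.empty_subset _)).2.2 N n₀ hHN).1
    have h2 : 1 ≤ z * ((H : ℝ) / q) := by
      rw [mul_div_assoc', le_div_iff₀ hqR, one_mul]
      exact hqz
    linarith
  have h0 : 0 ≤ 1 - κ + 4 * m * z := by
    have : 0 ≤ (m : ℝ) * z := by positivity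
    linarith
  calc ∑ n ∈ iv N H q n₀, ∏ l, yy W A g T l 1 n
      ≤ ∑ n ∈ iv N H q n₀, P * (1 - κ + κ * v n l₀ + 4 * m * z) :=
        Finset.sum_le_sum fun n _ => hone n
    _ = P * ((iv N H q n₀).card * (1 - κ + 4 * m * z) + κ * ∑ n ∈ iv N H q n₀, v n l₀) := by
        rw [← Finset.mul_sum]
        congr 1
        have h1 : ∀ n, 1 - κ + κ * v n l₀ + 4 * m * z = (1 - κ + 4 * m * z) + κ * v n l₀ := by
          intro n
          ring
        simp only [h1]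
        rw [Finset.sum_add_distrib, Finset.sum_const, nsmul_eq_mul, ← Finset.mul_sum]
    _ ≤ P * (((1 + z) * ((H : ℝ) / q)) * (1 - κ + 4 * m * z) + κ * ((H : ℝ) / q / 2)) := by
        refine mul_le_mul_of_nonneg_left (add_le_add ?_ ?_) hP0
        · exact mul_le_mul_of_nonneg_right hcard h0
        · exact mul_le_mul_of_nonneg_left hv0 hκ.le
    _ = ((H : ℝ) / q * P) * ((1 + z) * (1 - κ + 4 * m * z) + κ / 2) := by ring

theorem dtb (hq : T_DTQ) (hy : T_YBD) (ha : T_AVG) (hp : T_PRB) (hn : T_NRM) (hc : T_CNT) :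
    T_DTB := by
  intro m κ θ hm hκ hκ1 hθ hθm q W hq0 hqW hW ζ hζ
  have hmR : (1 : ℝ) ≤ m := by exact_mod_cast hm
  have hd : (0 : ℝ) < 8 * m + 3 := by linarith
  -- the small number
  obtain ⟨z, hz, hz1, hz2, hmz⟩ : ∃ z : ℝ, 0 < z ∧ z ≤ 1 ∧ (8 * m + 3) * z ≤ ζ ∧
      (m : ℝ) * z ≤ 1 / 2 := by
    refine ⟨min (1 / (8 * (m : ℝ) + 3)) (ζ / (8 * (m : ℝ) + 3)), lt_min (by positivity) (by positivity),
      ?_, ?_, ?_⟩
    · refine (min_le_left _ _).trans ?_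
      rw [div_le_one hd]
      linarith
    · calc (8 * (m : ℝ) + 3) * min (1 / (8 * (m : ℝ) + 3)) (ζ / (8 * (m : ℝ) + 3))
          ≤ (8 * m + 3) * (ζ / (8 * m + 3)) :=
            mul_le_mul_of_nonneg_left (min_le_right _ _) hd.le
        _ = ζ := by field_simp
    · calc (m : ℝ) * min (1 / (8 * (m : ℝ) + 3)) (ζ / (8 * (m : ℝ) + 3))
          ≤ m * (1 / (8 * m + 3)) := mul_le_mul_of_nonneg_left (min_le_left _ _) (by linarith)
        _ ≤ 1 / 2 := by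
            rw [mul_one_div, div_le_iff₀ hd]
            linarith
  obtain ⟨K₀, hK₀⟩ := hn m 2 q W z (by norm_num) hq0 hW hz
  refine ⟨⌈2 * W / z⌉₊ + 1, fun h hh => ?_⟩
  have hhpos : 0 < h := by omega
  have hWh : (W : ℝ) ≤ z / 2 * h := by
    have h1 : 2 * W / z ≤ (h : ℝ) := by
      refine (Nat.le_ceil _).trans ?_
      exact_mod_cast (by omega : ⌈2 * W / z⌉₊ ≤ h)
    rw [div_le_iff₀ hz] at h1
    linarith
  refine ⟨max (max K₀ q) (max ⌈q / z⌉₊ ⌈2 * ((2 * h + 1) * W : ℝ) / z⌉₊), ?_⟩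
  intro n₀ τ A g hA hA2 hg N H T hKH hHN hKT hTN hG w hw
  simp only [max_le_iff] at hKH hKT
  obtain ⟨hH1, hH2⟩ := hK₀ A H T hKH.1.1 hKT.1.1
  have hqz : (q : ℝ) ≤ z * H := by
    have h1 : (q : ℝ) / z ≤ H := (Nat.le_ceil _).trans (by exact_mod_cast hKH.2.1)
    rw [div_le_iff₀ hz] at h1
    linarith
  have hT : ((2 * h + 1) * W : ℝ) ≤ z / 2 * T := by
    have h1 : 2 * ((2 * h + 1) * W : ℝ) / z ≤ T :=
      (Nat.le_ceil _).trans (by exact_mod_cast hKT.2.2)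
    rw [div_le_iff₀ hz] at h1
    linarith
  have hsum := sum_prod_le hy ha hp hc hm hκ hκ1 hθ hθm hz hmz hq0 hW hhpos hWh hA hg hHN hTN
    hKH.1.2 hKT.1.2 hqz hT hG (n₀ := n₀)
  have hdtq := hq m q W n₀ 2 τ A g w N H T hq0 hW hqW (by norm_num) hA hA2 hg hw hHN
  refine hdtq.trans ?_
  have h1 : Finset.Ico 1 2 = {1} := by decide
  rw [h1, Finset.sum_singleton]
  have hM : mm q W A H T = (H : ℝ) / q * ∏ l, ((A l).card * ((T : ℝ) / W)) := rfl
  rw [← hM] at hsum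
  set M := mm q W A H T with hMdef
  set S := ∑ n ∈ iv N H q n₀, ∏ l, yy W A g T l 1 n with hS
  set p := pp W A T with hpdef
  have hM0 : 0 ≤ M := by
    rw [hM]
    exact mul_nonneg (by positivity) (Finset.prod_nonneg fun l _ => by positivity)
  have hS0 : 0 ≤ S := Finset.sum_nonneg fun n _ => Finset.prod_nonneg fun l _ => abs_nonneg _
  have hp0 : 0 ≤ p := Finset.prod_nonneg fun l _ => by positivity
  push_cast at hH1 hH2 ⊢
  have h2 : (W : ℝ) / q * p * (((H : ℝ) / W + 1 + 2) / 2 ^ 2 *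
      (2 * (((H : ℝ) / q + 1) * p) + 2 * ((2 - 1) * S))) =
      ((W : ℝ) / q * p * ((H : ℝ) / W + 1 + 2)) * ((1 / 4) *
        (2 * (((H : ℝ) / q + 1) * p) + 2 * S)) := by ring
  rw [h2]
  calc ((W : ℝ) / q * p * ((H : ℝ) / W + 1 + 2)) * ((1 / 4) *
        (2 * (((H : ℝ) / q + 1) * p) + 2 * S))
      ≤ ((1 + z) * M) * ((1 / 4) * (2 * ((1 + z) * M) +
          2 * (M * ((1 + z) * (1 - κ + 4 * m * z) + κ / 2)))) := by
        refine mul_le_mul hH1 ?_ (by positivity) (by positivity)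
        refine mul_le_mul_of_nonneg_left ?_ (by norm_num)
        linarith
    _ = M ^ 2 * ((1 + z) * (1 / 4) *
          (2 * (1 + z) + 2 * ((1 + z) * (1 - κ + 4 * m * z) + κ / 2))) := by ring
    _ ≤ M ^ 2 * (1 - κ / 4 + ζ) :=
        mul_le_mul_of_nonneg_left (final_ineq (by linarith) hκ hz.le hz1 hz2) (sq_nonneg _)

end Pool.Agent.H75.MCL
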